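import Pool.Agent.MWC.Stmts

set_option autoImplicit false

namespace Pool.Agent.MWC.H77

open Pool.Agent.Helper14_MV Pool.Agent.Helper2_MV Pool.Agent.MVO Pool.Agent.MWL

theorem bel (hS : ShfStmt) (hM : BmpStmt) (hN : BmnStmt) (hF : FaaStmt) : BelStmt := by
  intro r n β hiso hcl hlr k i NB C D hi hbel hNB c d hc hd hci hdi hcC hdD hB
  have h1 := hbel
  unfold MWC.bel at h1
  rw [List.all_eq_true] at h1
  have h2 := h1 _ hcC
  rw [List.all_eq_true] at h2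
  have h3 := h2 _ hdD
  rw [List.any_eq_true] at h3
  obtain ⟨q, hq, h4⟩ := h3
  rw [List.any_eq_true] at h4
  obtain ⟨g, hg, h5⟩ := h4
  rw [Bool.and_eq_true, Bool.or_eq_true, Bool.and_eq_true, Bool.and_eq_true] at h5
  obtain ⟨hgi, h6⟩ := h5
  have hgi' : rep g i = q.2.1 := Nat.eq_of_beq_eq_true hgi
  have hbm : BMap k q.1 (rep g) := hM.2.1 k q.1 g hg
  have hpsl : ∀ c : ℕ → ℕ, psl r k q.1 g (rep (shp r k c)) = shp r q.1 (psh k (rep g) c) := by
    intro c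
    obtain ⟨-, -, -, -, -, hf, -, -⟩ := hS r k c
    rw [hf q.1 (rep g) hbm]
    unfold psl
    have e : pss k g (rep (shp r k c)) = psh k (rep g) (rep (shp r k c)) := by
      funext j
      exact hM.2.2 k g (rep g) _ j (fun _ _ => rfl)
    rw [e]
  rw [hpsl, hpsl] at h6
  rcases h6 with ⟨h7, h8⟩ | ⟨h7, h8⟩
  · exact hNB q hq (hN r n β hiso hcl hlr k q.1 i q.2.1 c d (rep g) q.2.2.1 q.2.2.2 hc hd hi hci
      hdi hbm hgi' h7 h8 hB)
  · exact hNB q hq (hN r n β hiso hcl hlr k q.1 i q.2.1 d c (rep g) q.2.2.1 q.2.2.2 hd hc hi hdi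
      hci hbm hgi' h7 h8 ((hF β hcl).2.2.2.2.1 k c d i hB))

end Pool.Agent.MWC.H77
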