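import Pool.Agent.MWC.Stmts
import Pool.Agent.Helper80_MWN.NDC
import Pool.Agent.Helper30_MWN.NCT
import Pool.Agent.Helper77_MWN.NIN

set_option autoImplicit false

namespace Pool.Agent.MWC.H77

open Pool.Agent.Helper14_MV Pool.Agent.Helper2_MV Pool.Agent.MVO Pool.Agent.MWL
open Pool.Agent.MWN (NdcStmt NctStmt hv)
open Pool.Agent.MWN.H77 (count_flat_le asm_flat two_blk)
open Pool.Agent.MWS (ty Two01)
open Pool.Agent.MWF (gaml RR_gaml)

/-- the predicate of `QT` on lists -/
def QL (k : ℕ) (T : (ℕ → ℕ) → (ℕ → ℕ) → Prop) (w : List ℕ) : Prop :=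
  ∃ B : ℕ → List ℕ, w = asm k B ∧ (∀ j ≤ k, ∀ c ∈ B j, c = 0 ∨ c = 1) ∧
    T (fun j => (B j).count 0) (fun j => (B j).count 1) ∧
      (w.filter (fun c => decide (c = 0 ∨ c = 1))).getLast? = some 1

theorem gt_eq (k : ℕ) (T : (ℕ → ℕ) → (ℕ → ℕ) → Prop) : GT k T = gaml (QL k T) := rfl

theorem mw_last {k : ℕ} {a : ℕ → ℕ} (h : 1 ≤ a k) : ∃ L, mw k a = L ++ [0] := by
  obtain ⟨m, hm⟩ : ∃ m, a k = m + 1 := ⟨a k - 1, by omega⟩
  cases k with
  | zero =>
    refine ⟨List.replicate m 0, ?_⟩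
    show List.replicate (a 0) 0 = _
    rw [hm, List.replicate_succ']
  | succ k =>
    refine ⟨asm k (fun j => List.replicate (a j) 0) ++ (k + 2) :: List.replicate m 0, ?_⟩
    show asm k (fun j => List.replicate (a j) 0) ++ (k + 2) :: List.replicate (a (k + 1)) 0 = _
    rw [hm, List.replicate_succ', List.append_assoc, List.cons_append]

theorem dir (hN : NdcStmt) (hC : NctStmt) (k k0 : ℕ) (C D : (ℕ → ℕ) → Prop) (a a' : ℕ → ℕ)
    (ha : 2 ≤ deg k0 a) (h1 : 1 ≤ a k0) (h1' : 1 ≤ a' k0)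
    (HC : ∀ g, BMap k0 k g → ∀ (c c' r : ℕ → ℕ) (m : ℕ), (∀ j ≤ k, c j = r j + m * psh k0 g a j) →
      (∀ j ≤ k, c' j = r j + m * psh k0 g a' j) → C c → C c')
    (HD : ∀ g, BMap k0 k g → ∀ (c c' r : ℕ → ℕ) (m : ℕ), (∀ j ≤ k, c j = r j + m * psh k0 g a j) →
      (∀ j ≤ k, c' j = r j + m * psh k0 g a' j) → D c → D c')
    (f : ℕ → List ℕ) (p q : List ℕ)
    (h : QL k (fun c d => C c ∧ D d) (p ++ (mw k0 a).flatMap f ++ q)) :
    QL k (fun c d => C c ∧ D d) (p ++ (mw k0 a').flatMap f ++ q) := by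
  obtain ⟨W, hw, hW, ⟨hCc, hDd⟩, hlast⟩ := id h
  -- letters of `f 0`
  have hcnt : (mw k0 a).count 0 = deg k0 a := by
    unfold mw
    rw [count_asm (by rintro ⟨h1, -⟩; omega)]
    unfold deg
    refine Finset.sum_congr rfl fun j _ => ?_
    simp
  have hlet : ∀ c ∈ f 0, c = 0 ∨ c = 1 := by
    intro c hc
    have hc1 : 1 ≤ (f 0).count c := List.count_pos_iff.2 hc
    have h2 : 2 ≤ (asm k W).count c := by
      rw [← hw, List.count_append, List.count_append]
      have h3 := count_flat_le f (mw k0 a) 0 c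
      rw [hcnt] at h3
      have h4 : 2 * 1 ≤ deg k0 a * (f 0).count c := Nat.mul_le_mul ha hc1
      omega
    have hm : c ∈ asm k W := List.count_pos_iff.1 (by omega)
    rcases mem_asm.1 hm with ⟨h3, h4⟩ | ⟨j, hj, hcj⟩
    · rw [count_sep (two_blk hW) h3 h4] at h2
      omega
    · exact hW j hj c hcj
  by_cases hf0 : f 0 = []
  · have e : (mw k0 a').flatMap f = (mw k0 a).flatMap f := by
      unfold mw
      refine asm_flat fun j _ => ?_
      have e1 : ∀ m : ℕ, (List.replicate m 0).flatMap f = [] := by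
        intro m
        rw [List.flatMap_eq_nil_iff]
        intro c hc
        rw [List.eq_of_mem_replicate hc, hf0]
      rw [e1, e1]
    rw [e]
    exact h
  -- replace `f 1`
  obtain ⟨f', hf'⟩ : ∃ f' : ℕ → List ℕ, f' = fun c => if c = 1 then [] else f c := ⟨_, rfl⟩
  have f0 : f' 0 = f 0 := by rw [hf']; rfl
  have f1 : f' 1 = [] := by rw [hf']; rfl
  have hff : ∀ a : ℕ → ℕ, (mw k0 a).flatMap f = (mw k0 a).flatMap f' := by
    intro a
    refine flatMap_congr' fun c hc => ?_
    have hc1 : c ≠ 1 := by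
      rintro rfl
      rcases mem_asm.1 hc with ⟨h3, -⟩ | ⟨j, -, hcj⟩
      · omega
      · exact absurd (List.eq_of_mem_replicate hcj) one_ne_zero
    rw [hf']
    show f c = if c = 1 then [] else f c
    rw [if_neg hc1]
  rw [hff] at hw hlast ⊢
  have tw : ∀ a : ℕ → ℕ, Two01 k0 (fun j => List.replicate (a j) 0) :=
    fun a j _ c hc => Or.inl (List.eq_of_mem_replicate hc)
  obtain ⟨T, g, hg, hT, hTf, hTV⟩ := hN k k0 f' p q (fun j => List.replicate (a j) 0) W hW (tw a) (by
      rintro c (hc | hc)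
      · rw [f0] at hc; exact hlet c hc
      · rw [f1] at hc; exact absurd hc List.not_mem_nil) hw
  have hblk : ∀ V, Two01 k0 V →
      Two01 k (fun t => (T t).flatMap (hv (k + k0 + 2) f' V)) := by
    intro V hV t ht c hc
    obtain ⟨e, he, hce⟩ := List.mem_flatMap.1 hc
    unfold hv at hce
    by_cases hNe : k + k0 + 2 ≤ e
    · rw [if_pos hNe] at hce
      have h1 : e ∈ (T t).filter (fun c => decide (k + k0 + 2 ≤ c)) := by
        rw [List.mem_filter]
        exact ⟨he, decide_eq_true hNe⟩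
      rw [hTf t ht, List.mem_map] at h1
      obtain ⟨j, hj, hje⟩ := h1
      rw [List.mem_filter, List.mem_range] at hj
      have h2 : e - (k + k0 + 2) = j := by omega
      rw [h2] at hce
      obtain ⟨b, hb, hcb⟩ := List.mem_flatMap.1 hce
      rcases hV j (by omega) b hb with rfl | rfl
      · rw [f0] at hcb; exact hlet c hcb
      · rw [f1] at hcb; exact absurd hcb List.not_mem_nil
    · rw [if_neg hNe, List.mem_singleton] at hce
      rw [hce]
      rcases hT t ht e he with h1 | h1 | h1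
      · exact Or.inl h1
      · exact Or.inr h1
      · exact absurd h1 hNe
  have hWt := uniq (two_blk hW) (two_blk (hblk _ (tw a))) (by rw [← hw]; exact hTV _ (tw a))
  have hty : ∀ b : ℕ → ℕ, ty (fun j => List.replicate (b j) 0) 0 = b := by
    intro b
    funext j
    show (List.replicate (b j) 0).count 0 = b j
    simp
  have hcW : ∀ e, ∃ r : ℕ → ℕ, ∀ t ≤ k, ∀ b : ℕ → ℕ,
      ((T t).flatMap (hv (k + k0 + 2) f' (fun j => List.replicate (b j) 0))).count e =
        r t + (f 0).count e * psh k0 g b t := by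
    intro e
    have h2 : ∀ t, ∃ r : ℕ, t ≤ k → ∀ b : ℕ → ℕ,
      ((T t).flatMap (hv (k + k0 + 2) f' (fun j => List.replicate (b j) 0))).count e =
        r + (f 0).count e * psh k0 g b t := by
      intro t
      by_cases ht : t ≤ k
      · obtain ⟨r, hr⟩ := hC k0 (k + k0 + 2) f' (T t) g t (hTf t ht) e
        refine ⟨r, fun _ b => ?_⟩
        rw [hr _ (tw b), hty, f0, f1]
        simp
      · exact ⟨0, fun h => absurd h ht⟩
    choose r hr using h2
    exact ⟨r, fun t ht b => hr t ht b⟩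
  refine ⟨_, hTV _ (tw a'), hblk _ (tw a'), ⟨?_, ?_⟩, ?_⟩
  · obtain ⟨r, hr⟩ := hcW 0
    refine HC g hg _ _ r ((f 0).count 0) ?_ (fun t ht => hr t ht a') hCc
    intro t ht
    show (W t).count 0 = _
    rw [hWt t ht]
    exact hr t ht a
  · obtain ⟨r, hr⟩ := hcW 1
    refine HD g hg _ _ r ((f 0).count 1) ?_ (fun t ht => hr t ht a') hDd
    intro t ht
    show (W t).count 1 = _
    rw [hWt t ht]
    exact hr t ht a
  · obtain ⟨L, hL⟩ := mw_last h1
    obtain ⟨L', hL'⟩ := mw_last h1'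
    have hne : ((f' 0 ++ q).filter (fun c => decide (c = 0 ∨ c = 1))) ≠ [] := by
      rw [f0]
      obtain ⟨c, hc⟩ := List.exists_mem_of_ne_nil _ hf0
      intro h0
      rw [List.filter_eq_nil_iff] at h0
      exact h0 c (by simp [hc]) (decide_eq_true (hlet c hc))
    have key : ∀ M : List ℕ, ((p ++ (M ++ [0]).flatMap f' ++ q).filter
        (fun c => decide (c = 0 ∨ c = 1))).getLast? =
        ((f' 0 ++ q).filter (fun c => decide (c = 0 ∨ c = 1))).getLast? := by
      intro M
      have e : p ++ (M ++ [0]).flatMap f' ++ q = (p ++ M.flatMap f') ++ (f' 0 ++ q) := by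
        simp
      rw [e, List.filter_append, List.getLast?_append]
      rcases h0 : ((f' 0 ++ q).filter (fun c => decide (c = 0 ∨ c = 1))).getLast? with _ | x
      · rw [List.getLast?_eq_none_iff] at h0
        exact absurd h0 hne
      · rfl
    rw [hL, key] at hlast
    rw [hL', key]
    exact hlast

theorem psh_ad (n k0 i0 : ℕ) (a0 g : ℕ → ℕ) (hi : i0 ≤ k0) (j : ℕ) :
    psh k0 g (ad n a0 i0) j = psh k0 g a0 j + if j = g i0 then 2 * n else 0 := by
  unfold psh ad
  have e : ∀ i, (if g i = j then a0 i + (if i = i0 then 2 * n else 0) else 0) =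
      (if g i = j then a0 i else 0) + (if i = i0 then (if j = g i0 then 2 * n else 0) else 0) := by
    intro i
    by_cases h1 : i = i0
    · subst h1
      by_cases h2 : g i = j
      · rw [if_pos h2, if_pos h2, if_pos rfl, if_pos rfl, if_pos h2.symm]
      · rw [if_neg h2, if_neg h2, if_pos rfl, if_neg (Ne.symm h2)]
    · rw [if_neg h1, if_neg h1, add_zero, add_zero]
  simp only [e]
  rw [Finset.sum_add_distrib]
  congr 1
  rw [Finset.sum_ite_eq' (Finset.range (k0 + 1)) i0]
  rw [if_pos (Finset.mem_range.2 (by omega))]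

theorem kpg' (hN : NdcStmt) (hC : NctStmt) : KpgStmt := by
  intro n k C D eC eD k0 i0 a0 hi hdeg h1 hKC hKD
  have key : ∀ E : (ℕ → ℕ) → Prop, (∀ c c', (∀ j ≤ k, c j = c' j) → E c → E c') →
      KCl n k k0 i0 a0 E → ∀ g, BMap k0 k g → ∀ (c c' r : ℕ → ℕ) (m : ℕ),
      (∀ j ≤ k, c j = r j + m * psh k0 g a0 j) →
      (∀ j ≤ k, c' j = r j + m * psh k0 g (ad n a0 i0) j) → (E c ↔ E c') := by
    intro E eE hK g hg c c' r m hc hc'
    rcases Nat.eq_zero_or_pos m with rfl | hm
    · have e : ∀ j ≤ k, c j = c' j := by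
        intro j hj
        rw [hc j hj, hc' j hj, zero_mul, zero_mul]
      exact ⟨eE _ _ e, eE _ _ (fun j hj => (e j hj).symm)⟩
    · have h2 := hK g hg c (fun j hj => by
        rw [hc j hj]
        have := Nat.mul_le_mul_right (psh k0 g a0 j) hm
        omega) m hm
      have e : ∀ j ≤ k, c j + (if j = g i0 then 2 * n * m else 0) = c' j := by
        intro j hj
        rw [hc j hj, hc' j hj, psh_ad n k0 i0 a0 g hi]
        by_cases h3 : j = g i0
        · rw [if_pos h3, if_pos h3]; ring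
        · rw [if_neg h3, if_neg h3, add_zero, add_zero]
      rw [h2]
      exact ⟨eE _ _ e, eE _ _ (fun j hj => (e j hj).symm)⟩
  have hdeg' : 2 ≤ deg k0 (ad n a0 i0) := by
    refine hdeg.trans ?_
    unfold deg
    refine Finset.sum_le_sum fun j _ => ?_
    unfold ad
    omega
  have h1' : 1 ≤ ad n a0 i0 k0 := by
    unfold ad
    omega
  show RR (gaml (QL k (fun c d => C c ∧ D d))) (mw k0 a0) (mw k0 (ad n a0 i0))
  refine RR_gaml fun f p q => ⟨?_, ?_⟩
  · exact dir hN hC k k0 C D a0 (ad n a0 i0) hdeg h1 h1'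
      (fun g hg c c' r m hc hc' => (key C eC hKC g hg c c' r m hc hc').1)
      (fun g hg c c' r m hc hc' => (key D eD hKD g hg c c' r m hc hc').1) f p q
  · exact dir hN hC k k0 C D (ad n a0 i0) a0 hdeg' h1' h1
      (fun g hg c c' r m hc hc' => (key C eC hKC g hg c' c r m hc' hc).2)
      (fun g hg c c' r m hc hc' => (key D eD hKD g hg c' c r m hc' hc).2) f p q

theorem kpg : KpgStmt := kpg' Pool.Agent.MWN.H80.ndc Pool.Agent.MWN.H30.nct

end Pool.Agent.MWC.H77
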